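import Pool.Agent.H15.UB.Targets

/-!
# CNT: the number of exponents
-/

set_option autoImplicit false

open Pool.Agent.H15.UB Pool.Agent.H15.Defect

namespace Pool.Agent.H33.UB

/-- every exponent of degree at most `s` is a sum of `s` unit vectors or zeros -/
theorem exists_map {N : ℕ} (s : ℕ) : ∀ β : Fin N → ℕ, ∑ i, β i ≤ s →
    ∃ f : Fin s → Option (Fin N), ∀ i, β i = (Finset.univ.filter fun j => f j = some i).card := by
  classical
  induction s with
  | zero =>
    intro β hβ
    refine ⟨fun _ => none, fun i => ?_⟩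
    have h1 : β i ≤ ∑ i, β i := Finset.single_le_sum (fun _ _ => Nat.zero_le _) (Finset.mem_univ i)
    have h2 : (Finset.univ.filter fun j : Fin 0 => (fun _ => none : Fin 0 → Option (Fin N)) j = some i)
      = ∅ := by
      simp
    rw [h2, Finset.card_empty]
    omega
  | succ s ih =>
    intro β hβ
    by_cases h0 : ∀ i, β i = 0
    · refine ⟨fun _ => none, fun i => ?_⟩
      rw [h0 i, eq_comm, Finset.card_eq_zero, Finset.filter_eq_empty_iff]
      intro j _ h
      exact absurd h (by simp)
    · obtain ⟨i0, hi0⟩ := not_forall.1 h0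
      have h1 : ∑ i, (if i = i0 then β i - 1 else β i) + 1 = ∑ i, β i := by
        rw [← Finset.add_sum_erase _ _ (Finset.mem_univ i0),
          ← Finset.add_sum_erase _ (fun i => β i) (Finset.mem_univ i0), if_pos rfl]
        have h2 : ∑ x ∈ Finset.univ.erase i0, (if x = i0 then β x - 1 else β x) =
            ∑ x ∈ Finset.univ.erase i0, β x := by
          refine Finset.sum_congr rfl fun x hx => ?_
          rw [if_neg (Finset.ne_of_mem_erase hx)]
        rw [h2]
        omega
      obtain ⟨f, hf⟩ := ih (fun i => if i = i0 then β i - 1 else β i) (by omega)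
      refine ⟨Fin.cons (some i0) f, fun i => ?_⟩
      have h3 : (Finset.univ.filter fun j : Fin (s + 1) =>
          (Fin.cons (some i0) f : Fin (s + 1) → Option (Fin N)) j = some i).card =
          (if i0 = i then 1 else 0) + (Finset.univ.filter fun j : Fin s => f j = some i).card := by
        rw [Finset.card_filter, Fin.sum_univ_succ, Finset.card_filter]
        simp only [Fin.cons_zero, Fin.cons_succ, Option.some.injEq]
      rw [h3, ← hf i]
      by_cases h4 : i = i0
      · subst h4
        rw [if_pos rfl, if_pos rfl]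
        omega
      · rw [if_neg h4, if_neg (fun h => h4 h.symm)]
        omega

theorem pf_CNT : T_CNT := by
  classical
  intro N s h d r hNd hs hsr hh
  obtain ⟨D1, hD1⟩ : ∃ D1 : Finset (Fin N → ℕ), D1 =
    (Fintype.piFinset fun _ => Finset.range (s + 1)).filter fun β => ∑ i, β i ≤ s := ⟨_, rfl⟩
  obtain ⟨D2, hD2⟩ : ∃ D2 : Finset (Fin N → ℕ), D2 =
    (Fintype.piFinset fun _ => Finset.range d).filter
      fun β => ∑ i, β i < d ∧ ∀ i : Fin N, h ≤ (i : ℕ) → β i = 0 := ⟨_, rfl⟩
  have hle : ∀ (β : Fin N → ℕ) (i : Fin N), β i ≤ ∑ i, β i := fun β i =>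
    Finset.single_le_sum (fun _ _ => Nat.zero_le _) (Finset.mem_univ i)
  have hm1 : ∀ β, β ∈ D1 ↔ ∑ i, β i ≤ s := by
    intro β
    rw [hD1, Finset.mem_filter, Fintype.mem_piFinset]
    exact ⟨fun h => h.2, fun h => ⟨fun i => Finset.mem_range.2 (by have := hle β i; omega), h⟩⟩
  have hm2 : ∀ β, β ∈ D2 ↔ (∑ i, β i < d ∧ ∀ i : Fin N, h ≤ (i : ℕ) → β i = 0) := by
    intro β
    rw [hD2, Finset.mem_filter, Fintype.mem_piFinset]
    exact ⟨fun h => h.2, fun h => ⟨fun i => Finset.mem_range.2 (by have := hle β i; omega), h⟩⟩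
  have hd1 : 1 ≤ d := by omega
  -- first part
  have hc1 : D1.card ≤ d ^ r := by
    have h1 : D1 ⊆ (Finset.univ : Finset (Fin s → Option (Fin N))).image
        fun f i => (Finset.univ.filter fun j => f j = some i).card := by
      intro β hβ
      obtain ⟨f, hf⟩ := exists_map s β ((hm1 β).1 hβ)
      rw [Finset.mem_image]
      exact ⟨f, Finset.mem_univ _, funext fun i => (hf i).symm⟩
    calc D1.card ≤ _ := Finset.card_le_card h1
      _ ≤ (Finset.univ : Finset (Fin s → Option (Fin N))).card := Finset.card_image_le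
      _ = (N + 1) ^ s := by
          rw [Finset.card_univ, Fintype.card_fun, Fintype.card_option, Fintype.card_fin,
            Fintype.card_fin]
      _ ≤ d ^ s := Nat.pow_le_pow_left hNd s
      _ ≤ d ^ r := Nat.pow_le_pow_right hd1 hsr
  -- second part
  have hc2 : D2.card ≤ d ^ r := by
    have h1 : D2.card ≤ (Finset.univ : Finset (Fin h → Fin d)).card := by
      refine Finset.card_le_card_of_injOn (fun β j => if hj : (j : ℕ) < N then
        ⟨min (β ⟨j, hj⟩) (d - 1), by omega⟩ else ⟨0, by omega⟩) (fun _ _ => Finset.mem_coe.2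
          (Finset.mem_univ _)) ?_
      intro β hβ γ hγ hβγ
      have hβ' := (hm2 β).1 (Finset.mem_coe.1 hβ)
      have hγ' := (hm2 γ).1 (Finset.mem_coe.1 hγ)
      funext i
      by_cases hi : h ≤ (i : ℕ)
      · rw [hβ'.2 i hi, hγ'.2 i hi]
      · have h2 := congrFun hβγ ⟨i, by omega⟩
        simp only [Fin.is_lt, dite_true] at h2
        have h3 := Fin.mk.inj_iff.1 h2
        have h4 := hle β i
        have h5 := hle γ i
        have h6 := hβ'.1
        have h7 := hγ'.1
        simp only [Fin.eta] at h3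
        omega
    calc D2.card ≤ _ := h1
      _ = d ^ h := by
          rw [Finset.card_univ, Fintype.card_fun, Fintype.card_fin, Fintype.card_fin]
      _ ≤ d ^ r := Nat.pow_le_pow_right hd1 (hh.trans hsr)
  refine ⟨D1 ∪ D2, ?_, fun β => ?_⟩
  · calc (D1 ∪ D2).card ≤ D1.card + D2.card := Finset.card_union_le _ _
      _ ≤ 2 * d ^ r := by omega
  · rw [Finset.mem_union, hm1, hm2]

end Pool.Agent.H33.UB
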