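import Pool.Agent.H8.UB.Targets

/-!
Row LAC of the board ubd_modules: sublattices closed under witnesses.
-/

namespace Pool.Agent.H33.UB

open Pool.Agent.H8.UB Pool.Agent.H56.UDs

universe u v

theorem pf_LAC (hLABM : T_LAB.{0, u}) (hLABL : T_LAB.{0, v}) : T_LAC.{v, u} := by
  intro M L _ _ e B π hinf hle hπ hπ' hw hch
  obtain ⟨m1, -, -, -, -, -, -⟩ := hLABM M
  obtain ⟨l1, -, -, -, -, -, -⟩ := hLABL L
  intro β
  induction β using WellFoundedLT.induction with
  | _ β ih =>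
    intro hβ c d
    constructor
    · intro h
      rw [m1] at h
      rw [l1]
      refine Relation.ReflTransGen.lift e ?_ c d h
      rintro a b ⟨hab, γ', hγ', hun⟩
      obtain ⟨γ, hγB, hγβ, rfl⟩ := hπ' β hβ γ' hγ'
      refine ⟨(hle a b).2 hab, γ, hγβ, ?_⟩
      by_contra hn
      obtain ⟨x, y, hx, hx', hy, hy', hn1, hn2⟩ := hw γ hγB a b hab hn
      rcases hun x y hx hx' hy hy' with h1 | h1
      · exact hn1 ((ih γ hγβ hγB _ _).1 h1)
      · exact hn2 ((ih γ hγβ hγB _ _).1 h1)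
    · intro h
      rw [m1]
      refine Relation.ReflTransGen.mono ?_ c d (hch β hβ c d h)
      rintro a b ⟨hab, γ, hγB, hγβ, hun⟩
      refine ⟨hab, π γ, hπ γ hγB β hβ hγβ, ?_⟩
      intro x y hx hx' hy hy'
      have h1 := hun (e x) (e y) ((hle _ _).2 hx) ((hle _ _).2 hx') ((hle _ _).2 hy)
        ((hle _ _).2 hy')
      rw [← hinf] at h1
      rcases h1 with h1 | h1
      · exact Or.inl ((ih γ hγβ hγB _ _).2 h1)
      · exact Or.inr ((ih γ hγβ hγB _ _).2 h1)

end Pool.Agent.H33.UB
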