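import Pool.Agent.H8.UB.Targets

/-!
Row LAS of the board ubd_modules: rank and countably many classes.
-/

namespace Pool.Agent.H33.UB

open Pool.Agent.H8.UB Pool.Agent.H56.UDs

universe u

theorem collapse (hLAB : T_LAB.{0, u}) (L : Type u) [Lattice L] (b : Ordinal.{0})
    (hb : ∀ x y : L, St (b + 1) x y → St b x y) :
    ∀ (g : Ordinal.{0}) (x y : L), St g x y → St b x y := by
  obtain ⟨h1, h2, h3, h4, h5, h6, h7⟩ := hLAB L
  intro g
  induction g using WellFoundedLT.induction with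
  | _ g ih =>
    intro x y hxy
    rw [h1] at hxy
    induction hxy with
    | refl => exact (h1 _ _ _).2 Relation.ReflTransGen.refl
    | tail _ hs ihs =>
      rename_i c d _
      obtain ⟨hcd, δ, hδ, hun⟩ := hs
      have hstep : St b c d := by
        rcases lt_or_ge δ b with hlt | hge
        · exact h6 δ b c d hlt hcd hun
        · refine hb c d (h6 b (b + 1) c d (Order.lt_add_one_iff.2 le_rfl) hcd ?_)
          intro x y hx hx' hy hy'
          rcases hun x y hx hx' hy hy' with h | h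
          · exact Or.inl (ih δ hδ _ _ h)
          · exact Or.inr (ih δ hδ _ _ h)
      rw [h1] at ihs hstep ⊢
      exact ihs.trans hstep

theorem pf_LAS (hLAB : T_LAB.{0, u}) : T_LAS.{u} := by
  intro L _ _ ι _ f hf
  obtain ⟨h1, h2, h3, h4, h5, h6, h7⟩ := hLAB L
  by_cases hex : ∃ α : Ordinal.{0}, St (α + 1) (⊥ : L) ⊤
  swap
  · left
    unfold rk
    rw [if_neg hex]
  right
  obtain ⟨α, hα⟩ : ∃ α : Ordinal.{0}, α = sInf {α : Ordinal.{0} | St (α + 1) (⊥ : L) ⊤} :=
    ⟨_, rfl⟩
  have hrk : rk.{0} L = α := by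
    unfold rk
    rw [if_pos hex, hα]
  have hmem : St (α + 1) (⊥ : L) ⊤ := by
    rw [hα]
    exact csInf_mem (s := {α : Ordinal.{0} | St (α + 1) (⊥ : L) ⊤}) hex
  have hmin : ∀ b : Ordinal.{0}, St (b + 1) (⊥ : L) ⊤ → α ≤ b := by
    intro b hb
    rw [hα]
    exact csInf_le' hb
  refine ⟨α, ?_, hrk⟩
  have hex2 : ∀ b : Set.Iio α, ∃ p : L × L, St (b.1 + 1) p.1 p.2 ∧ ¬ St b.1 p.1 p.2 := by
    intro b
    by_contra hcon
    have hcon' : ∀ x y : L, St (b.1 + 1) x y → St b.1 x y := by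
      intro x y hxy
      by_contra hn
      exact hcon ⟨(x, y), hxy, hn⟩
    have h8 := collapse hLAB L b.1 hcon' _ _ _ hmem
    have h9 := h4 b.1 (b.1 + 1) _ _ (le_of_lt (Order.lt_add_one_iff.2 le_rfl)) h8
    exact absurd (hmin b.1 h9) (not_le.2 b.2)
  choose p hp1 hp2 using hex2
  have hinj : Function.Injective fun b : Set.Iio α => f (p b).1 (p b).2 := by
    have key : ∀ b c : Set.Iio α, b < c → f (p b).1 (p b).2 ≠ f (p c).1 (p c).2 := by
      intro b c hbc he
      have h8 : St c.1 (p b).1 (p b).2 := h4 _ _ _ _ (Order.add_one_le_iff.2 hbc) (hp1 b)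
      exact hp2 c (hf _ _ _ _ he c.1 h8)
    intro b c h
    rcases lt_trichotomy b c with h8 | h8 | h8
    · exact absurd h (key b c h8)
    · exact h8
    · exact absurd h.symm (key c b h8)
  have hc : Countable (Set.Iio α) := hinj.countable
  have h8 := Cardinal.mk_le_aleph0 (α := Set.Iio α)
  rw [Cardinal.mk_Iio_ordinal, Cardinal.lift_le_aleph0] at h8
  exact h8

end Pool.Agent.H33.UB
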